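import Pool.Agent.H58.BL.Stm

/-!
# BL/F3: features of the degree 3 kernel (helper127 for helper58)
-/

set_option autoImplicit false

open Finset

namespace Pool.Agent.H127.BL

open Pool.Agent.H58.BL

/-- the Kronecker symbol -/
def kd {d : ℕ} (a b : Fin d) : ℝ := if a = b then 1 else 0

/-- the symmetric part of `v ⊗ 1` -/
def sy {d : ℕ} (v : Fin d → ℝ) (a b c : Fin d) : ℝ := v a * kd b c + v b * kd a c + v c * kd a b

lemma sum_kd {d : ℕ} (f : Fin d → ℝ) (b : Fin d) : ∑ c, f c * kd b c = f b := by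
  unfold kd
  simp

lemma sum_kd' {d : ℕ} (b : Fin d) : ∑ c, kd b c = 1 := by
  unfold kd
  simp

lemma l1 {d : ℕ} (v w : Fin d → ℝ) :
    ∑ a, ∑ b, ∑ c, (v a * v b * v c) * (w a * w b * w c) = dt v w ^ 3 := by
  have h : dt v w ^ 3 = dt v w * (dt v w * dt v w) := by ring
  rw [h]
  unfold dt
  rw [sum_mul_sum, sum_mul_sum]
  refine sum_congr rfl fun a _ => sum_congr rfl fun b _ => ?_
  rw [mul_sum]
  exact sum_congr rfl fun c _ => by ring

lemma l2 {d : ℕ} (v w : Fin d → ℝ) :
    ∑ a, ∑ b, ∑ c, (v a * v b * v c) * sy w a b c = 3 * (dt v w * dt v v) := by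
  have h1 : ∀ a b : Fin d, ∑ c, (v a * v b * v c) * sy w a b c =
      (v a * w a) * (v b * v b) + (v a * v a) * (v b * w b) +
        (v a * v b * kd a b) * dt v w := by
    intro a b
    have h2 : ∀ c, (v a * v b * v c) * sy w a b c =
        (v a * v b * w a * v c) * kd b c + (v a * v b * w b * v c) * kd a c +
          (v a * v b * kd a b) * (v c * w c) := by
      intro c
      unfold sy
      ring
    rw [sum_congr rfl fun c _ => h2 c, sum_add_distrib, sum_add_distrib,
      sum_kd (fun c => v a * v b * w a * v c), sum_kd (fun c => v a * v b * w b * v c),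
      ← mul_sum]
    unfold dt
    ring
  have h3 : ∀ a : Fin d, ∑ b, ∑ c, (v a * v b * v c) * sy w a b c =
      (v a * w a) * dt v v + (v a * v a) * dt v w + (v a * v a) * dt v w := by
    intro a
    rw [sum_congr rfl fun b _ => h1 a b, sum_add_distrib, sum_add_distrib, ← mul_sum, ← mul_sum,
      ← sum_mul, sum_kd (fun b => v a * v b)]
    rfl
  rw [sum_congr rfl fun a _ => h3 a, sum_add_distrib, sum_add_distrib, ← sum_mul, ← sum_mul]
  have h4 : ∑ a, v a * w a = dt v w := rfl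
  have h5 : ∑ a, v a * v a = dt v v := rfl
  rw [h4, h5]
  ring

lemma l3 {d : ℕ} (v w : Fin d → ℝ) :
    ∑ a, ∑ b, ∑ c, sy v a b c * sy w a b c = (3 * d + 6) * dt v w := by
  have h1 : ∀ a b c : Fin d, sy v a b c * sy w a b c =
      (v a * w a) * kd b c + (v b * w b) * kd a c + kd a b * (v c * w c) +
        (6 * (v a * w a) * kd a b) * kd b c := by
    intro a b c
    unfold sy kd
    by_cases hab : a = b
    · subst hab
      by_cases hbc : a = c
      · subst hbc
        simp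
        ring
      · simp [hbc]
    · by_cases hbc : b = c
      · subst hbc
        simp [hab]
      · by_cases hac : a = c
        · subst hac
          simp [hab, hbc]
        · simp [hab, hbc, hac]
  have h2 : ∀ a b : Fin d, ∑ c, sy v a b c * sy w a b c =
      v a * w a + v b * w b + kd a b * dt v w + 6 * (v a * w a) * kd a b := by
    intro a b
    rw [sum_congr rfl fun c _ => h1 a b c, sum_add_distrib, sum_add_distrib, sum_add_distrib,
      ← mul_sum, ← mul_sum, ← mul_sum, ← mul_sum, sum_kd', sum_kd']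
    unfold dt
    ring
  have h3 : ∀ a : Fin d, ∑ b, ∑ c, sy v a b c * sy w a b c =
      d * (v a * w a) + dt v w + dt v w + 6 * (v a * w a) := by
    intro a
    have e1 : ∑ b, kd a b * dt v w = dt v w := by rw [← sum_mul, sum_kd', one_mul]
    have e2 : ∑ b, 6 * (v a * w a) * kd a b = 6 * (v a * w a) := by
      rw [← mul_sum, sum_kd', mul_one]
    have e3 : ∑ b, v b * w b = dt v w := rfl
    rw [sum_congr rfl fun b _ => h2 a b, sum_add_distrib, sum_add_distrib, sum_add_distrib,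
      e1, e2, e3, sum_const, card_univ, Fintype.card_fin, nsmul_eq_mul]
  rw [sum_congr rfl fun a _ => h3 a, sum_add_distrib, sum_add_distrib, sum_add_distrib,
    ← mul_sum, ← mul_sum, sum_const, card_univ, Fintype.card_fin, nsmul_eq_mul]
  have h4 : ∑ a, v a * w a = dt v w := rfl
  rw [h4]
  ring

lemma dt_comm {d : ℕ} (v w : Fin d → ℝ) : dt v w = dt w v :=
  sum_congr rfl fun _ _ => mul_comm _ _

/-- F3 -/
theorem t_f3 : S_F3 := by
  intro d hd
  have hd' : (2 : ℝ) ≤ d := by exact_mod_cast hd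
  have hd1 : (0 : ℝ) < (d : ℝ) - 1 := by linarith
  have hd2 : (0 : ℝ) < (d : ℝ) + 2 := by linarith
  refine ⟨Fin d × Fin d × Fin d, inferInstance, fun v x =>
    √(((d : ℝ) + 2) / (d - 1)) * (v x.1 * v x.2.1 * v x.2.2 - sy v x.1 x.2.1 x.2.2 / (d + 2)),
    fun v w hv hw => ?_⟩
  have hs : √(((d : ℝ) + 2) / (d - 1)) * √(((d : ℝ) + 2) / (d - 1)) = ((d : ℝ) + 2) / (d - 1) :=
    Real.mul_self_sqrt (by positivity)
  have h1 : ∀ x : Fin d × Fin d × Fin d,
      √(((d : ℝ) + 2) / (d - 1)) * (v x.1 * v x.2.1 * v x.2.2 - sy v x.1 x.2.1 x.2.2 / (d + 2)) *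
      (√(((d : ℝ) + 2) / (d - 1)) * (w x.1 * w x.2.1 * w x.2.2 - sy w x.1 x.2.1 x.2.2 / (d + 2))) =
      ((d : ℝ) + 2) / (d - 1) * ((v x.1 * v x.2.1 * v x.2.2) * (w x.1 * w x.2.1 * w x.2.2) -
        1 / (d + 2) * ((v x.1 * v x.2.1 * v x.2.2) * sy w x.1 x.2.1 x.2.2) -
        1 / (d + 2) * ((w x.1 * w x.2.1 * w x.2.2) * sy v x.1 x.2.1 x.2.2) +
        1 / (d + 2) ^ 2 * (sy v x.1 x.2.1 x.2.2 * sy w x.1 x.2.1 x.2.2)) := by
    intro x
    rw [mul_mul_mul_comm, hs]
    congr 1
    field_simp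
    ring
  rw [sum_congr rfl fun x _ => h1 x, ← mul_sum, sum_add_distrib, sum_sub_distrib, sum_sub_distrib,
    ← mul_sum, ← mul_sum, ← mul_sum]
  simp only [Fintype.sum_prod_type]
  rw [l1, l2, l2, l3, hv, hw, dt_comm w v]
  field_simp
  ring

end Pool.Agent.H127.BL
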